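import Mathlib

/-!
# Removing one colour from a Gallai colouring in which every vertex misses a colour

`c x y` is the colour of the pair `x, y`; `v x` is the colour of the vertex `x`.
-/

set_option autoImplicit false

namespace Pool.Agent.X101.GRS

variable {U V : Type*} {k : ℕ}

/-- symmetric on `X` -/
def SymOn (X : Finset V) (c : V → V → Fin k) : Prop :=
  ∀ x ∈ X, ∀ y ∈ X, x ≠ y → c x y = c y x

/-- no rainbow triangle in `X` -/
def GalOn (X : Finset V) (c : V → V → Fin k) : Prop :=
  ∀ x ∈ X, ∀ y ∈ X, ∀ z ∈ X, x ≠ y → y ≠ z → x ≠ z →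
    c x y = c y z ∨ c y z = c x z ∨ c x y = c x z

/-- `K` has no homomorphism to the graph of the pairs of colour `j` inside `X` -/
def Avoid (K : SimpleGraph U) (X : Finset V) (c : V → V → Fin k) (j : Fin k) : Prop :=
  ¬ ∃ f : U → V, (∀ u, f u ∈ X) ∧ ∀ a b, K.Adj a b → f a ≠ f b ∧ c (f a) (f b) = j

/-- adjacency in colour `i` inside `X` -/
def R (X : Finset V) (c : V → V → Fin k) (i : Fin k) (x y : V) : Prop :=
  x ∈ X ∧ y ∈ X ∧ x ≠ y ∧ c x y = i

open Classical in
/-- the component of `x` in colour `i` -/
noncomputable def comp (X : Finset V) (c : V → V → Fin k) (i : Fin k) (x : V) : Finset V :=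
  X.filter fun y => Relation.ReflTransGen (R X c i) x y

/-- the colours of the pairs leaving `C` -/
def out (X : Finset V) (c : V → V → Fin k) (C : Finset V) : Set (Fin k) :=
  {j | ∃ x ∈ C, ∃ y ∈ X, y ∉ C ∧ c x y = j}

section comp

variable {X : Finset V} {c : V → V → Fin k} {i : Fin k}

theorem mem_comp {x y : V} : y ∈ comp X c i x ↔ y ∈ X ∧ Relation.ReflTransGen (R X c i) x y := by
  classical
  simp [comp]

theorem self_mem {x : V} (hx : x ∈ X) : x ∈ comp X c i x := mem_comp.2 ⟨hx, .refl⟩

theorem comp_sub {x : V} : comp X c i x ⊆ X := fun _ hy => (mem_comp.1 hy).1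

theorem R_symm (hs : SymOn X c) {x y : V} (h : R X c i x y) : R X c i y x :=
  ⟨h.2.1, h.1, h.2.2.1.symm, by rw [← hs x h.1 y h.2.1 h.2.2.1]; exact h.2.2.2⟩

theorem reach_symm (hs : SymOn X c) {x y : V} (h : Relation.ReflTransGen (R X c i) x y) :
    Relation.ReflTransGen (R X c i) y x := by
  induction h with
  | refl => exact .refl
  | tail _ h2 ih => exact (Relation.ReflTransGen.single (R_symm hs h2)).trans ih

theorem comp_eq (hs : SymOn X c) {x y : V} (h : y ∈ comp X c i x) :
    comp X c i y = comp X c i x := by
  have h1 := (mem_comp.1 h).2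
  ext z
  rw [mem_comp, mem_comp]
  exact ⟨fun hz => ⟨hz.1, h1.trans hz.2⟩, fun hz => ⟨hz.1, (reach_symm hs h1).trans hz.2⟩⟩

theorem mem_comp_comm (hs : SymOn X c) {x y : V} (hx : x ∈ X) (h : y ∈ comp X c i x) :
    x ∈ comp X c i y := by
  rw [comp_eq hs h]; exact self_mem hx

/-- a colour `i` pair stays in the component -/
theorem mem_of_color {x y z : V} (hy : y ∈ comp X c i x) (hz : z ∈ X) (hyz : y ≠ z)
    (h : c y z = i) : z ∈ comp X c i x :=
  mem_comp.2 ⟨hz, (mem_comp.1 hy).2.tail ⟨(mem_comp.1 hy).1, hz, hyz, h⟩⟩

/-- components are modules -/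
theorem module (hg : GalOn X c) {x y z : V}
    (hy : y ∈ comp X c i x) (hz : z ∈ X) (hzc : z ∉ comp X c i x) : c y z = c x z := by
  have hkey : ∀ w, Relation.ReflTransGen (R X c i) x w → c w z = c x z := by
    intro w hw
    induction hw with
    | refl => rfl
    | @tail a b h1 h2 ih =>
      rw [← ih]
      have ha : a ∈ comp X c i x := mem_comp.2 ⟨h2.1, h1⟩
      have hb : b ∈ comp X c i x := mem_comp.2 ⟨h2.2.1, h1.tail h2⟩
      have haz : a ≠ z := fun h => hzc (h ▸ ha)
      have hbz : b ≠ z := fun h => hzc (h ▸ hb)
      rcases hg a h2.1 b h2.2.1 z hz h2.2.2.1 hbz haz with h | h | h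
      · exact absurd (mem_of_color hb hz hbz (h ▸ h2.2.2.2)) hzc
      · exact h
      · exact absurd (mem_of_color ha hz haz (h ▸ h2.2.2.2)) hzc
  exact hkey y (mem_comp.1 hy).2

end comp

/-- the conclusion of the recolouring: colour `i` is removed, colours in `P` do not change -/
structure Good (K : SimpleGraph U) (X : Finset V) (P : Set (Fin k)) (c c' : V → V → Fin k)
    (i : Fin k) : Prop where
  sym : SymOn X c'
  gal : GalOn X c'
  ne : ∀ x ∈ X, ∀ y ∈ X, x ≠ y → c' x y ≠ i
  keep : ∀ x ∈ X, ∀ y ∈ X, x ≠ y → ∀ j ∈ P, (c' x y = j ↔ c x y = j)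
  avoid : ∀ j, Avoid K X c' j

theorem recolour (K : SimpleGraph U) (hK : K.Connected) (c : V → V → Fin k) (v : V → Fin k) :
    ∀ (m : ℕ) (X : Finset V) (P : Set (Fin k)) (i : Fin k), X.card ≤ m → SymOn X c → GalOn X c →
      (∀ x ∈ X, v x ∉ P) → (∀ x ∈ X, ∀ y ∈ X, x ≠ y → c x y ≠ v x) → (∀ j, Avoid K X c j) →
      i ∉ P → ∃ c' : V → V → Fin k, Good K X P c c' i := by
  classical
  intro m
  induction m with
  | zero =>
    intro X P i hX hs hg hv he ha hi
    have hX0 : X = ∅ := by rw [← Finset.card_eq_zero]; omega
    subst hX0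
    exact ⟨c, hs, hg, by simp, by simp, ha⟩
  | succ m ih =>
    intro X P i hX hs hg hv he ha hi
    rcases X.eq_empty_or_nonempty with hX0 | ⟨x0, hx0⟩
    · subst hX0
      exact ⟨c, hs, hg, by simp, by simp, ha⟩
    set i0 : Fin k := v x0 with hi0
    set C : V → Finset V := comp X c i0 with hC
    have hi0P : i0 ∉ P := hv x0 hx0
    -- the component of `x0` is a single vertex
    have hCx0 : ∀ y, y ∈ C x0 → y = x0 := by
      intro y hy
      have h1 := (mem_comp.1 hy).2
      rcases Relation.ReflTransGen.cases_head h1 with h | ⟨z, h, _⟩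
      · exact h.symm
      · exact absurd h.2.2.2 (he x0 hx0 z h.2.1 h.2.2.1)
    have hmod : ∀ x ∈ X, ∀ y ∈ C x, ∀ z ∈ X, z ∉ C x → c y z = c x z := by
      intro x _ y hy z hz hzc
      exact module hg hy hz hzc
    -- the recolouring of the components
    have hrec : ∀ x ∈ X, ∃ g : V → V → Fin k, Good K (C x) (P ∪ out X c (C x)) c g i0 := by
      intro x hx
      have hsub : C x ⊆ X := comp_sub
      have hs' : SymOn (C x) c := fun a h1 b h2 => hs a (hsub h1) b (hsub h2)
      have hg' : GalOn (C x) c := fun a h1 b h2 d h3 => hg a (hsub h1) b (hsub h2) d (hsub h3)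
      have ha' : ∀ j, Avoid K (C x) c j := by
        rintro j ⟨f, hf1, hf2⟩
        exact ha j ⟨f, fun u => hsub (hf1 u), hf2⟩
      by_cases hxx : x = x0
      · subst hxx
        refine ⟨c, hs', hg', ?_, fun _ _ _ _ _ _ _ => Iff.rfl, ha'⟩
        intro a h1 b h2 hab
        exact absurd ((hCx0 a h1).trans (hCx0 b h2).symm) hab
      · apply ih (C x) _ i0 _ hs' hg' _ _ ha' _
        · have h1 : C x ⊂ X := by
            refine Finset.ssubset_iff_subset_ne.2 ⟨hsub, fun h => hxx ?_⟩
            have h2 : x0 ∈ C x := h ▸ hx0
            exact hCx0 x (mem_comp_comm hs hx h2)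
          have := Finset.card_lt_card h1
          omega
        · rintro y hy (h | ⟨a, h1, z, h2, h3, h4⟩)
          · exact hv y (hsub hy) h
          · have h5 : c y z = c a z := by
              rw [hmod x hx y hy z h2 h3, hmod x hx a h1 z h2 h3]
            have h6 : y ≠ z := fun h => h3 (h ▸ hy)
            exact he y (hsub hy) z h2 h6 (h5.trans h4)
        · exact fun a h1 b h2 => he a (hsub h1) b (hsub h2)
        · rintro (h | ⟨a, h1, z, h2, h3, h4⟩)
          · exact hi0P h
          · exact h3 (mem_of_color h1 h2 (fun h => h3 (h ▸ h1)) h4)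
    -- one recolouring for each component
    let g : Finset V → V → V → Fin k := fun D =>
      if h : ∃ g : V → V → Fin k, Good K D (P ∪ out X c D) c g i0 then h.choose else c
    have hgood : ∀ x ∈ X, Good K (C x) (P ∪ out X c (C x)) c (g (C x)) i0 := by
      intro x hx
      have h := hrec x hx
      have : g (C x) = h.choose := by simp only [g]; rw [dif_pos h]
      rw [this]
      exact h.choose_spec
    let c1 : V → V → Fin k := fun x y => if y ∈ C x then g (C x) x y else c x y
    have hin : ∀ x y, y ∈ C x → c1 x y = g (C x) x y := fun x y h => by simp only [c1]; rw [if_pos h]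
    have hout : ∀ x y, y ∉ C x → c1 x y = c x y := fun x y h => by simp only [c1]; rw [if_neg h]
    have hCeq : ∀ x y, y ∈ C x → C y = C x := fun x y h => comp_eq hs h
    have hself : ∀ x ∈ X, x ∈ C x := fun x hx => self_mem hx
    have hcomm : ∀ x ∈ X, ∀ y ∈ X, y ∉ C x → x ∉ C y := by
      intro x _ y hy h h2
      exact h (mem_comp_comm hs hy h2)
    have main : Good K X P c c1 i0 := by
      refine ⟨?_, ?_, ?_, ?_, ?_⟩
      · intro x hx y hy hxy
        by_cases h : y ∈ C x
        · have hyx : x ∈ C y := mem_comp_comm hs hx h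
          rw [hin x y h, hin y x hyx, hCeq x y h]
          exact (hgood x hx).sym x (hself x hx) y h hxy
        · rw [hout x y h, hout y x (hcomm x hx y hy h)]
          exact hs x hx y hy hxy
      · intro x hx y hy z hz hxy hyz hxz
        by_cases h1 : y ∈ C x
        · by_cases h2 : z ∈ C x
          · have h3 : z ∈ C y := by rw [hCeq x y h1]; exact h2
            rw [hin x y h1, hin x z h2, hin y z h3, hCeq x y h1]
            exact (hgood x hx).gal x (hself x hx) y h1 z h2 hxy hyz hxz
          · have h3 : z ∉ C y := by rw [hCeq x y h1]; exact h2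
            right; left
            rw [hout x z h2, hout y z h3]
            exact hmod x hx y h1 z hz h2
        · by_cases h2 : z ∈ C x
          · have h4 : y ∉ C z := by rw [hCeq x z h2]; exact h1
            have h3 : z ∉ C y := hcomm z hz y hy h4
            left
            rw [hout x y h1, hout y z h3, hs y hy z hz hyz]
            exact (hmod x hx z h2 y hy h1).symm
          · by_cases h3 : z ∈ C y
            · right; right
              rw [hout x y h1, hout x z h2, hs x hx y hy hxy, hs x hx z hz hxz]
              exact (hmod y hy z h3 x hx (hcomm x hx y hy h1)).symm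
            · rw [hout x y h1, hout x z h2, hout y z h3]
              exact hg x hx y hy z hz hxy hyz hxz
      · intro x hx y hy hxy
        by_cases h : y ∈ C x
        · rw [hin x y h]
          exact (hgood x hx).ne x (hself x hx) y h hxy
        · rw [hout x y h]
          intro h2
          exact h (mem_of_color (self_mem hx) hy hxy h2)
      · intro x hx y hy hxy j hj
        by_cases h : y ∈ C x
        · rw [hin x y h]
          exact (hgood x hx).keep x (hself x hx) y h hxy j (Or.inl hj)
        · rw [hout x y h]
      · rintro j ⟨f, hf1, hf2⟩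
        obtain ⟨u0⟩ := hK.nonempty
        by_cases hj : j ∈ out X c (C (f u0))
        · -- all vertices lie in components with `j` outside
          have hall : ∀ u, j ∈ out X c (C (f u)) := by
            intro u
            have hr := hK.preconnected u0 u
            obtain ⟨p⟩ := hr
            induction p with
            | nil => exact hj
            | @cons a b d hab p ih2 =>
              apply ih2
              by_cases h : f b ∈ C (f a)
              · rw [hCeq _ _ h]; exact hj
              · have h1 := (hf2 a b hab)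
                rw [hout _ _ h] at h1
                exact ⟨f b, hself _ (hf1 b), f a, hf1 a, hcomm _ (hf1 a) _ (hf1 b) h,
                  by rw [hs _ (hf1 b) _ (hf1 a) h1.1.symm]; exact h1.2⟩
          refine ha j ⟨f, hf1, fun a b hab => ?_⟩
          have h1 := hf2 a b hab
          refine ⟨h1.1, ?_⟩
          by_cases h : f b ∈ C (f a)
          · rw [hin _ _ h] at h1
            exact ((hgood _ (hf1 a)).keep _ (hself _ (hf1 a)) _ h h1.1 j (Or.inr (hall a))).1 h1.2
          · rw [hout _ _ h] at h1
            exact h1.2
        · have hall : ∀ u, f u ∈ C (f u0) := by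
            intro u
            have hr := hK.preconnected u0 u
            obtain ⟨p⟩ := hr
            have key : ∀ {a b : U} (p : K.Walk a b), f a ∈ C (f u0) → f b ∈ C (f u0) := by
              intro a b p
              induction p with
              | nil => exact id
              | @cons a b d hab p ih2 =>
                intro ha2
                apply ih2
                by_contra h
                have h1 := hf2 a b hab
                have h2 : f b ∉ C (f a) := by rw [hCeq _ _ ha2]; exact h
                rw [hout _ _ h2] at h1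
                exact hj ⟨f a, ha2, f b, hf1 b, h, h1.2⟩
            exact key p (hself _ (hf1 u0))
          refine (hgood _ (hf1 u0)).avoid j ⟨f, hall, fun a b hab => ?_⟩
          have h1 := hf2 a b hab
          have h2 : f b ∈ C (f a) := by rw [hCeq _ _ (hall a)]; exact hall b
          rw [hin _ _ h2, hCeq _ _ (hall a)] at h1
          exact h1
    -- rename `i0` and `i`
    let σ : Equiv.Perm (Fin k) := Equiv.swap i0 i
    refine ⟨fun x y => σ (c1 x y), ?_, ?_, ?_, ?_, ?_⟩
    · intro x hx y hy hxy
      exact congrArg σ (main.sym x hx y hy hxy)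
    · intro x hx y hy z hz hxy hyz hxz
      rcases main.gal x hx y hy z hz hxy hyz hxz with h | h | h
      · exact Or.inl (congrArg σ h)
      · exact Or.inr (Or.inl (congrArg σ h))
      · exact Or.inr (Or.inr (congrArg σ h))
    · intro x hx y hy hxy h
      have h1 : σ (c1 x y) = σ i0 := by
        rw [h]; exact (Equiv.swap_apply_left i0 i).symm
      exact main.ne x hx y hy hxy (σ.injective h1)
    · intro x hx y hy hxy j hj
      have h1 : σ j = j := Equiv.swap_apply_of_ne_of_ne (fun h => hi0P (h ▸ hj)) (fun h => hi (h ▸ hj))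
      rw [← main.keep x hx y hy hxy j hj]
      constructor
      · intro h
        exact σ.injective (by rw [h1]; exact h)
      · intro h
        show σ (c1 x y) = j
        rw [h, h1]
    · rintro j ⟨f, hf1, hf2⟩
      refine main.avoid (σ.symm j) ⟨f, hf1, fun a b hab => ⟨(hf2 a b hab).1, ?_⟩⟩
      rw [← (hf2 a b hab).2, Equiv.symm_apply_apply]

end Pool.Agent.X101.GRS
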